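import Mathlib

set_option autoImplicit false

open MeasureTheory Measure Set Filter Topology
open scoped ENNReal NNReal

namespace Pool.Agent.Results.MP_6df474_gt.CornerSimplex

/-- Euclidean space `ℝⁿ`. -/
abbrev E (n : ℕ) : Type := EuclideanSpace ℝ (Fin n)

/-- `V₂(K)` for a convex body `K` in `ℝ³`: half of its surface area, the two-dimensional
(Euclidean) Hausdorff measure of the boundary. -/
noncomputable def V2 (K : Set (E 3)) : ℝ := (μHE[2] (frontier K)).toReal / 2

/-- The isometric embedding `ℝ² → ℝ³` onto the plane `{x | x i = c}`, which inserts the entry `c`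
at position `i`. -/
noncomputable def emb (i : Fin 3) (c : ℝ) (y : E 2) : E 3 := WithLp.toLp 2 (i.insertNth c y.ofLp)

/-- `ℓᵢ(K) = V₁(K ∩ eᵢ^⊥)`: half the perimeter of the section of `K` by the coordinate plane
`eᵢ^⊥`, that is half of the one-dimensional Hausdorff measure of its relative boundary. The
section is viewed as a subset of `ℝ²` through the isometric embedding `emb i 0`. -/
noncomputable def ell (i : Fin 3) (K : Set (E 3)) : ℝ :=
  (μHE[1] (frontier (emb i 0 ⁻¹' K))).toReal / 2

/-- The simplex `{x | xᵢ ≥ -1, x₁ + x₂ + x₃ ≤ 37}`. -/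
def simplex : Set (E 3) := {x | (∀ i, -1 ≤ x i) ∧ ∑ i, x i ≤ 37}

/-- The triangle `{y | yᵢ ≥ -1, y₁ + y₂ ≤ s}`. -/
def tri (s : ℝ) : Set (E 2) := {y | (∀ i, -1 ≤ y i) ∧ ∑ i, y i ≤ s}

/-! ### Elementary facts on the simplex -/

theorem isClosed_simplex : IsClosed simplex := by
  have h1 : IsClosed {x : E 3 | ∀ i, -1 ≤ x i} := by
    rw [show {x : E 3 | ∀ i, -1 ≤ x i} = ⋂ i, {x : E 3 | -1 ≤ x i} by
      ext x; simp]
    exact isClosed_iInter fun i => isClosed_le continuous_const (by fun_prop)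
  have h2 : IsClosed {x : E 3 | ∑ i, x i ≤ 37} :=
    isClosed_le (by fun_prop) continuous_const
  exact h1.inter h2

theorem isClosed_tri (s : ℝ) : IsClosed (tri s) := by
  have h1 : IsClosed {x : E 2 | ∀ i, -1 ≤ x i} := by
    rw [show {x : E 2 | ∀ i, -1 ≤ x i} = ⋂ i, {x : E 2 | -1 ≤ x i} by
      ext x; simp]
    exact isClosed_iInter fun i => isClosed_le continuous_const (by fun_prop)
  have h2 : IsClosed {x : E 2 | ∑ i, x i ≤ s} :=
    isClosed_le (by fun_prop) continuous_const
  exact h1.inter h2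

theorem convex_simplex : Convex ℝ simplex := by
  intro x hx y hy a b ha hb hab
  refine ⟨fun i => ?_, ?_⟩
  · have h1 := hx.1 i
    have h2 := hy.1 i
    simp only [PiLp.add_apply, PiLp.smul_apply, smul_eq_mul]
    nlinarith
  · have h1 := hx.2
    have h2 := hy.2
    simp only [PiLp.add_apply, PiLp.smul_apply, smul_eq_mul, Finset.sum_add_distrib,
      ← Finset.mul_sum]
    nlinarith

theorem isCompact_simplex : IsCompact simplex := by
  have h1 : simplex ⊆ (WithLp.toLp 2) '' (Icc (fun _ => -1) (fun _ => 39) : Set (Fin 3 → ℝ)) := by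
    intro x hx
    refine ⟨x.ofLp, ⟨fun i => hx.1 i, fun i => ?_⟩, rfl⟩
    have h0 := hx.1 0
    have h1 := hx.1 1
    have h2 := hx.1 2
    have h3 := hx.2
    rw [Fin.sum_univ_three] at h3
    fin_cases i <;> simp <;> linarith
  exact (isCompact_Icc.image (PiLp.continuous_toLp 2 _)).of_isClosed_subset isClosed_simplex h1

theorem zero_mem_interior : (0 : E 3) ∈ interior simplex := by
  rw [mem_interior]
  refine ⟨{x | (∀ i, -1 < x i) ∧ ∑ i, x i < 37}, fun x hx => ⟨fun i => (hx.1 i).le, hx.2.le⟩,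
    ?_, ?_⟩
  · have h1 : IsOpen {x : E 3 | ∀ i, -1 < x i} := by
      rw [show {x : E 3 | ∀ i, -1 < x i} = ⋂ i, {x : E 3 | -1 < x i} by
        ext x; simp]
      exact isOpen_iInter_of_finite fun i => isOpen_lt continuous_const (by fun_prop)
    have h2 : IsOpen {x : E 3 | ∑ i, x i < 37} :=
      isOpen_lt (by fun_prop) continuous_const
    exact h1.inter h2
  · refine ⟨fun i => ?_, ?_⟩ <;> simp

theorem emb_self (i : Fin 3) (c : ℝ) (y : E 2) : emb i c y i = c := by
  simp [emb]

theorem emb_succAbove (i : Fin 3) (c : ℝ) (y : E 2) (j : Fin 2) :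
    emb i c y (i.succAbove j) = y j := by
  simp [emb]

theorem preimage_simplex (i : Fin 3) : emb i 0 ⁻¹' simplex = tri 37 := by
  ext y
  simp only [simplex, tri, mem_preimage, Set.mem_ofPred_eq]
  rw [Fin.forall_iff_succAbove i, Fin.sum_univ_succAbove _ i]
  simp only [emb_self, emb_succAbove, zero_add]
  constructor
  · rintro ⟨⟨_, h1⟩, h2⟩
    exact ⟨h1, h2⟩
  · rintro ⟨h1, h2⟩
    exact ⟨⟨by norm_num, h1⟩, h2⟩

theorem isometry_emb (i : Fin 3) (c : ℝ) : Isometry (emb i c) := by
  apply Isometry.of_dist_eq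
  intro x y
  rw [EuclideanSpace.dist_eq, EuclideanSpace.dist_eq, Fin.sum_univ_succAbove _ i]
  simp [emb_self, emb_succAbove]

/-! ### The area of the triangle -/

theorem volume_tri (s : ℝ) (hs : -2 ≤ s) : volume (tri s) = ENNReal.ofReal ((s + 2) ^ 2 / 2) := by
  set S : Set (ℝ × ℝ) := {p | -1 ≤ p.1 ∧ -1 ≤ p.2 ∧ p.1 + p.2 ≤ s} with hS
  have hSm : MeasurableSet S := by
    apply IsClosed.measurableSet
    exact (isClosed_le continuous_const continuous_fst).inter
      ((isClosed_le continuous_const continuous_snd).inter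
        (isClosed_le (continuous_fst.add continuous_snd) continuous_const))
  have h1 : volume (tri s) = volume S := by
    have e1 := PiLp.volume_preserving_toLp (Fin 2)
    have e2 := (MeasureTheory.volume_preserving_finTwoArrow ℝ).symm
    rw [← e1.measure_preimage (isClosed_tri s).measurableSet.nullMeasurableSet,
      ← e2.measure_preimage]
    · congr 1
      ext p
      simp [tri, hS, and_assoc]
    · exact (e1.measurable (isClosed_tri s).measurableSet).nullMeasurableSet
  rw [h1, Measure.volume_eq_prod, Measure.prod_apply hSm]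
  have h2 : ∀ x : ℝ, volume (Prod.mk x ⁻¹' S) =
      (Icc (-1) (s + 1)).indicator (fun x => ENNReal.ofReal (s + 1 - x)) x := by
    intro x
    by_cases hx : x ∈ Icc (-1) (s + 1)
    · rw [indicator_of_mem hx]
      have : Prod.mk x ⁻¹' S = Icc (-1) (s - x) := by
        ext y
        simp only [hS, mem_preimage, Set.mem_ofPred_eq, mem_Icc]
        constructor
        · rintro ⟨_, h2, h3⟩
          exact ⟨h2, by linarith⟩
        · rintro ⟨h2, h3⟩
          exact ⟨hx.1, h2, by linarith⟩
      rw [this, Real.volume_Icc]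
      congr 1
      ring
    · rw [indicator_of_notMem hx]
      have : Prod.mk x ⁻¹' S = ∅ := by
        ext y
        simp only [hS, mem_preimage, Set.mem_ofPred_eq, mem_empty_iff_false, iff_false]
        rintro ⟨h1, h2, h3⟩
        exact hx ⟨h1, by linarith⟩
      rw [this, measure_empty]
  rw [lintegral_congr h2, lintegral_indicator measurableSet_Icc, ← ofReal_integral_eq_lintegral_ofReal]
  · congr 1
    rw [integral_Icc_eq_integral_Ioc, ← intervalIntegral.integral_of_le (by linarith)]
    have : ∀ x ∈ Set.uIcc (-1) (s + 1), HasDerivAt (fun x : ℝ => (s + 1) * x - x ^ 2 / 2)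
        (s + 1 - x) x := by
      intro x _
      have h3 := ((hasDerivAt_id x).const_mul (s + 1)).sub (((hasDerivAt_id x).pow 2).div_const 2)
      refine h3.congr_deriv ?_
      simp
    rw [intervalIntegral.integral_eq_sub_of_hasDerivAt this]
    · ring
    · apply Continuous.intervalIntegrable
      fun_prop
  · apply ContinuousOn.integrableOn_Icc
    fun_prop
  · rw [Filter.EventuallyLE, ae_restrict_iff' measurableSet_Icc]
    apply Eventually.of_forall
    intro x hx
    have := hx.2
    simp only [Pi.zero_apply]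
    linarith

/-! ### The slanted face -/

theorem sqrt2_sq : (Real.sqrt 2) ^ 2 = 2 := Real.sq_sqrt (by norm_num)
theorem sqrt3_sq : (Real.sqrt 3) ^ 2 = 3 := Real.sq_sqrt (by norm_num)

/-- Isometric parametrisation of the plane `x₁ + x₂ + x₃ = 37`. -/
noncomputable def slant (w : E 2) : E 3 :=
  WithLp.toLp 2 ![Real.sqrt 2 / 2 * w 0 + Real.sqrt 2 * Real.sqrt 3 / 6 * w 1,
    -(Real.sqrt 2 / 2) * w 0 + Real.sqrt 2 * Real.sqrt 3 / 6 * w 1,
    37 - Real.sqrt 2 * Real.sqrt 3 / 3 * w 1]

theorem isometry_slant : Isometry slant := by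
  apply Isometry.of_dist_eq
  intro x y
  rw [EuclideanSpace.dist_eq, EuclideanSpace.dist_eq]
  congr 1
  simp only [Fin.sum_univ_three, Fin.sum_univ_two, Real.dist_eq, sq_abs, slant,
    Matrix.cons_val_zero, Matrix.cons_val_one, Matrix.cons_val]
  have h2 := sqrt2_sq
  have h3 := sqrt3_sq
  generalize Real.sqrt 2 = u at *
  generalize Real.sqrt 3 = v at *
  have h4 : (u * v) ^ 2 = 6 := by rw [mul_pow, h2, h3]; norm_num
  linear_combination ((x 0 - y 0) ^ 2 / 2) * h2 + ((x 1 - y 1) ^ 2 / 6) * h4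

/-- The linear map whose preimage of the triangle parametrises the slanted face. -/
noncomputable def lin : E 2 →ₗ[ℝ] E 2 where
  toFun w := WithLp.toLp 2 ![Real.sqrt 2 / 2 * w 0 + Real.sqrt 2 * Real.sqrt 3 / 6 * w 1,
    -(Real.sqrt 2 / 2) * w 0 + Real.sqrt 2 * Real.sqrt 3 / 6 * w 1]
  map_add' x y := by
    ext i
    fin_cases i
    · simp
      ring
    · simp
      ring
  map_smul' c x := by
    ext i
    fin_cases i
    · simp
      ring
    · simp
      ring

theorem det_lin : LinearMap.det lin = Real.sqrt 3 / 3 := by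
  have hb := LinearMap.det_toMatrix (EuclideanSpace.basisFun (Fin 2) ℝ).toBasis lin
  rw [← hb, Matrix.det_fin_two]
  simp only [LinearMap.toMatrix_apply]
  simp [lin]
  have h2 := sqrt2_sq
  linear_combination (Real.sqrt 3 / 6) * h2

theorem slant_face {x : E 3} (hx : x ∈ simplex) (h : ∑ i, x i = 37) :
    x ∈ slant '' (lin ⁻¹' (tri 38)) := by
  have h2 := sqrt2_sq
  have h3 := sqrt3_sq
  have h0' := hx.1 0
  have h1' := hx.1 1
  have h2' := hx.1 2
  rw [Fin.sum_univ_three] at h
  set w : E 2 := WithLp.toLp 2 ![Real.sqrt 2 / 2 * (x 0 - x 1),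
    Real.sqrt 2 * Real.sqrt 3 / 2 * (x 0 + x 1)] with hw
  have hw0 : w 0 = Real.sqrt 2 / 2 * (x 0 - x 1) := by simp [hw]
  have hw1 : w 1 = Real.sqrt 2 * Real.sqrt 3 / 2 * (x 0 + x 1) := by simp [hw]
  have e0 : Real.sqrt 2 / 2 * w 0 + Real.sqrt 2 * Real.sqrt 3 / 6 * w 1 = x 0 := by
    rw [hw0, hw1]
    generalize Real.sqrt 2 = u at *
    generalize Real.sqrt 3 = v at *
    have h4 : (u * v) ^ 2 = 6 := by rw [mul_pow, h2, h3]; norm_num
    linear_combination ((x 0 - x 1) / 4) * h2 + ((x 0 + x 1) / 12) * h4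
  have e1 : -(Real.sqrt 2 / 2) * w 0 + Real.sqrt 2 * Real.sqrt 3 / 6 * w 1 = x 1 := by
    rw [hw0, hw1]
    generalize Real.sqrt 2 = u at *
    generalize Real.sqrt 3 = v at *
    have h4 : (u * v) ^ 2 = 6 := by rw [mul_pow, h2, h3]; norm_num
    linear_combination (-(x 0 - x 1) / 4) * h2 + ((x 0 + x 1) / 12) * h4
  have e2 : 37 - Real.sqrt 2 * Real.sqrt 3 / 3 * w 1 = x 2 := by
    linarith
  refine ⟨w, ?_, ?_⟩
  · rw [mem_preimage]
    refine ⟨fun i => ?_, ?_⟩
    · fin_cases i
      · change -1 ≤ Real.sqrt 2 / 2 * w 0 + Real.sqrt 2 * Real.sqrt 3 / 6 * w 1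
        rw [e0]; exact h0'
      · change -1 ≤ -(Real.sqrt 2 / 2) * w 0 + Real.sqrt 2 * Real.sqrt 3 / 6 * w 1
        rw [e1]; exact h1'
    · rw [Fin.sum_univ_two]
      change (Real.sqrt 2 / 2 * w 0 + Real.sqrt 2 * Real.sqrt 3 / 6 * w 1) +
        (-(Real.sqrt 2 / 2) * w 0 + Real.sqrt 2 * Real.sqrt 3 / 6 * w 1) ≤ 38
      rw [e0, e1]
      linarith
  · ext i
    fin_cases i
    · exact e0
    · exact e1
    · exact e2

theorem area_slant : μHE[2] (slant '' (lin ⁻¹' (tri 38))) = ENNReal.ofReal (800 * Real.sqrt 3) := by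
  rw [isometry_slant.euclideanHausdorffMeasure_image,
    EuclideanSpace.euclideanHausdorffMeasure_eq_volume]
  have hs3 : 0 < Real.sqrt 3 := Real.sqrt_pos.2 (by norm_num)
  have hne : LinearMap.det lin ≠ 0 := by
    rw [det_lin]; positivity
  rw [Measure.addHaar_preimage_linearMap _ hne, volume_tri _ (by norm_num), det_lin,
    ← ENNReal.ofReal_mul (abs_nonneg _), abs_of_pos (by positivity)]
  congr 1
  have h3 := sqrt3_sq
  field_simp
  nlinarith

theorem area_flat (i : Fin 3) : μHE[2] (emb i (-1) '' (tri 38)) = ENNReal.ofReal 800 := by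
  rw [(isometry_emb i (-1)).euclideanHausdorffMeasure_image,
    EuclideanSpace.euclideanHausdorffMeasure_eq_volume, volume_tri _ (by norm_num)]
  norm_num

theorem flat_face {x : E 3} (hx : x ∈ simplex) (i : Fin 3) (h : x i = -1) :
    x ∈ emb i (-1) '' (tri 38) := by
  refine ⟨WithLp.toLp 2 (fun j => x (i.succAbove j)), ⟨fun j => hx.1 _, ?_⟩, ?_⟩
  · have := hx.2
    rw [Fin.sum_univ_succAbove _ i, h] at this
    simp only
    linarith
  · ext j
    rcases Fin.eq_self_or_eq_succAbove i j with rfl | ⟨k, rfl⟩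
    · rw [emb_self, h]
    · rw [emb_succAbove]

theorem frontier_simplex : frontier simplex ⊆
    (⋃ i, emb i (-1) '' (tri 38)) ∪ slant '' (lin ⁻¹' (tri 38)) := by
  intro x hx
  have hx1 : x ∈ simplex := by
    have := hx.1
    rwa [isClosed_simplex.closure_eq] at this
  by_cases h1 : ∃ i, x i = -1
  · obtain ⟨i, hi⟩ := h1
    left
    exact mem_iUnion.2 ⟨i, flat_face hx1 i hi⟩
  · by_cases h2 : ∑ i, x i = 37
    · right
      exact slant_face hx1 h2
    · exfalso
      push Not at h1
      apply hx.2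
      rw [mem_interior]
      refine ⟨{x | (∀ i, -1 < x i) ∧ ∑ i, x i < 37}, fun x hx => ⟨fun i => (hx.1 i).le, hx.2.le⟩,
        ?_, ?_⟩
      · have h1 : IsOpen {x : E 3 | ∀ i, -1 < x i} := by
          rw [show {x : E 3 | ∀ i, -1 < x i} = ⋂ i, {x : E 3 | -1 < x i} by
            ext x; simp]
          exact isOpen_iInter_of_finite fun i => isOpen_lt continuous_const (by fun_prop)
        have h2 : IsOpen {x : E 3 | ∑ i, x i < 37} :=
          isOpen_lt (by fun_prop) continuous_const
        exact h1.inter h2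
      · exact ⟨fun i => lt_of_le_of_ne (hx1.1 i) (h1 i).symm, lt_of_le_of_ne hx1.2 h2⟩

theorem V2_le : V2 simplex ≤ (2400 + 800 * Real.sqrt 3) / 2 := by
  have h1 : μHE[2] (frontier simplex) ≤ ENNReal.ofReal (2400 + 800 * Real.sqrt 3) := by
    refine (measure_mono frontier_simplex).trans ((measure_union_le _ _).trans ?_)
    rw [area_slant, ENNReal.ofReal_add (by norm_num) (by positivity)]
    gcongr
    refine (measure_iUnion_fintype_le _ _).trans ?_
    simp only [area_flat]
    rw [Finset.sum_const, Finset.card_univ, Fintype.card_fin, nsmul_eq_mul,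
      ← ENNReal.ofReal_natCast, ← ENNReal.ofReal_mul (by norm_num)]
    norm_num
  have h2 : (μHE[2] (frontier simplex)).toReal ≤ 2400 + 800 * Real.sqrt 3 :=
    ENNReal.toReal_le_of_le_ofReal (by positivity) h1
  rw [V2]
  linarith

/-! ### The perimeter of the triangle -/

theorem factor_one :
    addHaarScalarFactor (volume : Measure (EuclideanSpace ℝ (Fin 1))) μH[((1 : ℕ) : ℝ)] = 1 := by
  have h1 : (μHE[1] : Measure ℝ) = volume := by
    have := InnerProductSpace.euclideanHausdorffMeasure_eq_volume (V := ℝ)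
    rwa [Module.finrank_self] at this
  have h2 : (μHE[1] : Measure ℝ) (Icc 0 1) = 1 := by rw [h1]; simp
  have h3 : (μH[((1 : ℕ) : ℝ)] : Measure ℝ) (Icc 0 1) = 1 := by
    rw [Nat.cast_one, hausdorffMeasure_real]; simp
  rw [euclideanHausdorffMeasure_def, Measure.smul_apply, h3, ENNReal.smul_def, smul_eq_mul,
    mul_one] at h2
  exact_mod_cast h2

theorem euclideanHausdorffMeasure_one {X : Type*} [EMetricSpace X] [MeasurableSpace X]
    [BorelSpace X] (s : Set X) : μHE[1] s = μH[1] s := by
  rw [euclideanHausdorffMeasure_def, Measure.smul_apply, factor_one, Nat.cast_one, one_smul]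

/-- The vertices of the triangle. -/
noncomputable def pA : E 2 := WithLp.toLp 2 ![-1, -1]
noncomputable def pB : E 2 := WithLp.toLp 2 ![38, -1]
noncomputable def pC : E 2 := WithLp.toLp 2 ![-1, 38]

theorem dist_AB : dist pA pB = 39 := by
  rw [EuclideanSpace.dist_eq]
  simp [pA, pB, Real.dist_eq]
  norm_num

theorem dist_AC : dist pA pC = 39 := by
  rw [EuclideanSpace.dist_eq]
  simp [pA, pC, Real.dist_eq]
  norm_num

theorem dist_BC : dist pB pC = 39 * Real.sqrt 2 := by
  rw [EuclideanSpace.dist_eq]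
  simp [pB, pC, Real.dist_eq]
  rw [show (39 : ℝ) * Real.sqrt 2 = Real.sqrt (39 ^ 2) * Real.sqrt 2 by
    rw [Real.sqrt_sq (by norm_num)], ← Real.sqrt_mul (by norm_num)]
  norm_num

theorem seg_AB : segment ℝ pA pB = {y : E 2 | y 1 = -1 ∧ -1 ≤ y 0 ∧ y 0 ≤ 38} := by
  ext y
  simp only [segment, Set.mem_ofPred_eq]
  constructor
  · rintro ⟨a, b, ha, hb, hab, rfl⟩
    simp [pA, pB]
    refine ⟨by linarith, by linarith, by linarith⟩
  · rintro ⟨h1, h2, h3⟩
    refine ⟨1 - (y 0 + 1) / 39, (y 0 + 1) / 39, by linarith, by linarith, by ring, ?_⟩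
    ext i
    fin_cases i
    · simp [pA, pB]
      ring
    · simp [pA, pB]
      rw [h1]
      ring

theorem seg_AC : segment ℝ pA pC = {y : E 2 | y 0 = -1 ∧ -1 ≤ y 1 ∧ y 1 ≤ 38} := by
  ext y
  simp only [segment, Set.mem_ofPred_eq]
  constructor
  · rintro ⟨a, b, ha, hb, hab, rfl⟩
    simp [pA, pC]
    refine ⟨by linarith, by linarith, by linarith⟩
  · rintro ⟨h1, h2, h3⟩
    refine ⟨1 - (y 1 + 1) / 39, (y 1 + 1) / 39, by linarith, by linarith, by ring, ?_⟩
    ext i
    fin_cases i
    · simp [pA, pC]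
      rw [h1]
      ring
    · simp [pA, pC]
      ring

theorem seg_BC : segment ℝ pB pC = {y : E 2 | y 0 + y 1 = 37 ∧ -1 ≤ y 0 ∧ -1 ≤ y 1} := by
  ext y
  simp only [segment, Set.mem_ofPred_eq]
  constructor
  · rintro ⟨a, b, ha, hb, hab, rfl⟩
    simp [pB, pC]
    refine ⟨by linarith, by linarith, by linarith⟩
  · rintro ⟨h1, h2, h3⟩
    refine ⟨1 - (y 1 + 1) / 39, (y 1 + 1) / 39, by linarith, by linarith, by ring, ?_⟩
    ext i
    fin_cases i
    · simp [pB, pC]
      linarith
    · simp [pB, pC]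
      ring

theorem exists_move {s : ℝ} {y : E 2} (v : E 2) (hy : y ∈ interior (tri s)) :
    ∃ t : ℝ, 0 < t ∧ y + t • v ∈ tri s := by
  have h1 : Tendsto (fun t : ℝ => y + t • v) (𝓝 0) (𝓝 y) := by
    have : Continuous (fun t : ℝ => y + t • v) := by fun_prop
    simpa using this.tendsto 0
  have h2 : ∀ᶠ t : ℝ in 𝓝 0, y + t • v ∈ tri s := h1 (mem_interior_iff_mem_nhds.1 hy)
  have h3 : ∀ᶠ t : ℝ in 𝓝[>] 0, y + t • v ∈ tri s := h2.filter_mono nhdsWithin_le_nhds
  obtain ⟨t, ht, ht2⟩ := (h3.and self_mem_nhdsWithin).exists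
  exact ⟨t, ht2, ht⟩

theorem frontier_tri : frontier (tri 37) = (segment ℝ pA pB ∪ segment ℝ pA pC) ∪
    segment ℝ pB pC := by
  rw [seg_AB, seg_AC, seg_BC]
  apply Subset.antisymm
  · intro y hy
    have hy1 : y ∈ tri 37 := by
      have := hy.1
      rwa [(isClosed_tri 37).closure_eq] at this
    have h0 := hy1.1 0
    have h1 := hy1.1 1
    have h2 := hy1.2
    rw [Fin.sum_univ_two] at h2
    by_cases e1 : y 1 = -1
    · left; left
      exact ⟨e1, h0, by linarith⟩
    by_cases e0 : y 0 = -1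
    · left; right
      exact ⟨e0, h1, by linarith⟩
    by_cases e2 : y 0 + y 1 = 37
    · right
      exact ⟨e2, h0, h1⟩
    exfalso
    apply hy.2
    rw [mem_interior]
    refine ⟨{x | (-1 < x 0 ∧ -1 < x 1) ∧ x 0 + x 1 < 37}, fun x hx => ⟨fun i => ?_, ?_⟩,
      ?_, ?_⟩
    · fin_cases i
      · exact hx.1.1.le
      · exact hx.1.2.le
    · rw [Fin.sum_univ_two]
      exact hx.2.le
    · have h1 : IsOpen {x : E 2 | -1 < x 0} := isOpen_lt continuous_const (by fun_prop)
      have h2 : IsOpen {x : E 2 | -1 < x 1} := isOpen_lt continuous_const (by fun_prop)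
      have h3 : IsOpen {x : E 2 | x 0 + x 1 < 37} := isOpen_lt (by fun_prop) continuous_const
      exact (h1.inter h2).inter h3
    · exact ⟨⟨lt_of_le_of_ne h0 (Ne.symm e0), lt_of_le_of_ne h1 (Ne.symm e1)⟩,
        lt_of_le_of_ne h2 e2⟩
  · rintro y ((⟨h1, h2, h3⟩ | ⟨h1, h2, h3⟩) | ⟨h1, h2, h3⟩)
    · refine ⟨subset_closure ⟨fun i => ?_, ?_⟩, fun hint => ?_⟩
      · fin_cases i
        · exact h2
        · exact h1.ge
      · rw [Fin.sum_univ_two]
        linarith
      · obtain ⟨t, ht, ht2⟩ := exists_move (WithLp.toLp 2 ![0, -1]) hint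
        have := ht2.1 1
        simp at this
        linarith
    · refine ⟨subset_closure ⟨fun i => ?_, ?_⟩, fun hint => ?_⟩
      · fin_cases i
        · exact h1.ge
        · exact h2
      · rw [Fin.sum_univ_two]
        linarith
      · obtain ⟨t, ht, ht2⟩ := exists_move (WithLp.toLp 2 ![-1, 0]) hint
        have := ht2.1 0
        simp at this
        linarith
    · refine ⟨subset_closure ⟨fun i => ?_, ?_⟩, fun hint => ?_⟩
      · fin_cases i
        · exact h2
        · exact h3
      · rw [Fin.sum_univ_two]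
        linarith
      · obtain ⟨t, ht, ht2⟩ := exists_move (WithLp.toLp 2 ![1, 0]) hint
        have := ht2.2
        rw [Fin.sum_univ_two] at this
        simp at this
        linarith

theorem perimeter_tri : μHE[1] (frontier (tri 37)) =
    ENNReal.ofReal (39 * (2 + Real.sqrt 2)) := by
  have hna : ∀ p : E 2, (μH[1] : Measure (E 2)) {p} = 0 := by
    intro p
    have := Measure.nullSingletonClass_hausdorff (X := E 2) (show (0 : ℝ) < 1 by norm_num)
    exact measure_singleton p
  have hc0 : Continuous (fun y : E 2 => y 0) := by fun_prop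
  have hc1 : Continuous (fun y : E 2 => y 1) := by fun_prop
  have hAC : MeasurableSet (segment ℝ pA pC) := by
    rw [seg_AC]
    apply IsClosed.measurableSet
    exact (isClosed_eq hc0 continuous_const).inter
      ((isClosed_le continuous_const hc1).inter
        (isClosed_le hc1 continuous_const))
  have hBC : MeasurableSet (segment ℝ pB pC) := by
    rw [seg_BC]
    apply IsClosed.measurableSet
    exact (isClosed_eq (hc0.add hc1) continuous_const).inter
      ((isClosed_le continuous_const hc0).inter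
        (isClosed_le continuous_const hc1))
  rw [euclideanHausdorffMeasure_one, frontier_tri, measure_union₀ hBC.nullMeasurableSet,
    measure_union₀ hAC.nullMeasurableSet, hausdorffMeasure_segment, hausdorffMeasure_segment,
    hausdorffMeasure_segment, edist_dist, edist_dist, edist_dist, dist_AB, dist_AC, dist_BC,
    ← ENNReal.ofReal_add (by norm_num) (by norm_num),
    ← ENNReal.ofReal_add (by norm_num) (by positivity)]
  · congr 1
    ring
  · refine measure_mono_null ?_ (hna pA)
    rw [seg_AB, seg_AC]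
    rintro y ⟨⟨h1, h2, h3⟩, ⟨h4, h5, h6⟩⟩
    rw [mem_singleton_iff]
    ext i
    fin_cases i
    · simpa [pA] using h4
    · simpa [pA] using h1
  · have hsub : (segment ℝ pA pB ∪ segment ℝ pA pC) ∩ segment ℝ pB pC ⊆ {pB} ∪ {pC} := by
      rw [seg_AB, seg_AC, seg_BC]
      rintro y ⟨⟨h1, h2, h3⟩ | ⟨h1, h2, h3⟩, ⟨h4, h5, h6⟩⟩
      · left
        rw [mem_singleton_iff]
        ext i
        fin_cases i
        · change y 0 = 38
          linarith
        · simpa [pB] using h1
      · right
        rw [mem_singleton_iff]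
        ext i
        fin_cases i
        · simpa [pC] using h1
        · change y 1 = 38
          linarith
    exact measure_mono_null hsub (measure_union_null (hna _) (hna _))

theorem ell_simplex (i : Fin 3) : ell i simplex = 39 * (2 + Real.sqrt 2) / 2 := by
  rw [ell, preimage_simplex, perimeter_tri, ENNReal.toReal_ofReal (by positivity)]

/-- **Disproof of the Heron-type lower bound for `V₂` in `ℝ³`.** The simplex
`{x | xᵢ ≥ -1, x₁ + x₂ + x₃ ≤ 37}` is a convex body, with the origin in its interior, which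
violates the inequality. -/
theorem result : ∃ K : Set (E 3), IsCompact K ∧ Convex ℝ K ∧ (0 : E 3) ∈ interior K ∧
    V2 K ^ 2 < 1 / 16 * (∑ i, ell i K ^ 2) ^ 2 - 1 / 8 * ∑ i, ell i K ^ 4 := by
  refine ⟨simplex, isCompact_simplex, convex_simplex, zero_mem_interior, ?_⟩
  simp only [ell_simplex, Finset.sum_const, Finset.card_univ, Fintype.card_fin, nsmul_eq_mul]
  have h1 := V2_le
  have h0 : 0 ≤ V2 simplex := by unfold V2; positivity
  have h2 : V2 simplex ^ 2 ≤ ((2400 + 800 * Real.sqrt 3) / 2) ^ 2 :=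
    pow_le_pow_left₀ h0 h1 2
  refine lt_of_le_of_lt h2 ?_
  have s2 := sqrt2_sq
  have s3 := sqrt3_sq
  have hs2 : 1.414 < Real.sqrt 2 := Real.lt_sqrt_of_sq_lt (by norm_num)
  have hs3 : Real.sqrt 3 < 1.7321 := by
    rw [Real.sqrt_lt' (by norm_num)]; norm_num
  have e1 : ((2400 + 800 * Real.sqrt 3) / 2) ^ 2 = 1920000 + 960000 * Real.sqrt 3 := by
    linear_combination 160000 * s3
  have e2 : (39 * (2 + Real.sqrt 2) / 2) ^ 2 = 1521 / 4 * (6 + 4 * Real.sqrt 2) := by
    linear_combination (1521 / 4) * s2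
  have e3 : (39 * (2 + Real.sqrt 2) / 2) ^ 4 = 2313441 / 16 * (68 + 48 * Real.sqrt 2) := by
    have : (39 * (2 + Real.sqrt 2) / 2) ^ 4 = ((39 * (2 + Real.sqrt 2) / 2) ^ 2) ^ 2 := by ring
    rw [this, e2]
    linear_combination (2313441) * s2
  rw [e1, mul_pow, e3]
  have e4 : ((39 * (2 + Real.sqrt 2) / 2) ^ 2) ^ 2 = 2313441 / 16 * (68 + 48 * Real.sqrt 2) := by
    rw [← e3]; ring
  rw [e4]
  norm_num
  nlinarith

end Pool.Agent.Results.MP_6df474_gt.CornerSimplex
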